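import Pool.Agent.W500.FL.Stm

/-!
# Project FL: the Jacobi symbol modulo a squarefree polynomial takes both signs (FL-NT)
-/

set_option autoImplicit false

namespace Pool.Agent.W327.FL.NT

open Polynomial Pool.Agent.W500.FL

/-- the resultant with a monic irreducible polynomial is a norm -/
lemma res_norm {K : Type} [Field K] [Finite K] (P : K[X]) (hP : P.Monic) [Fact (Irreducible P)]
    (y : K[X]) : resultant P y = Algebra.norm K (AdjoinRoot.mk P y) := by
  have hP0 : P ≠ 0 := hP.ne_zero
  have : FiniteDimensional K (AdjoinRoot P) := (AdjoinRoot.powerBasis hP0).finite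
  have : Algebra.IsAlgebraic K (AdjoinRoot P) := Algebra.IsAlgebraic.of_finite K (AdjoinRoot P)
  have : Algebra.IsSeparable K (AdjoinRoot P) := inferInstance
  let E := AlgebraicClosure K
  apply (algebraMap K E).injective
  rw [Algebra.norm_eq_prod_embeddings K E]
  have hspl : (P.map (algebraMap K E)).Splits := IsAlgClosed.splits _
  have h1 := resultant_eq_prod_eval (P.map (algebraMap K E)) (y.map (algebraMap K E))
    y.natDegree (by simp) hspl
  rw [resultant_map_map, natDegree_map, (hP.map _).leadingCoeff, one_pow, one_mul] at h1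
  have hsep : P.Separable := PerfectField.separable_of_irreducible Fact.out
  have hnd : (P.aroots E).Nodup := nodup_roots hsep.map
  have h2 : ∏ σ : AdjoinRoot P →ₐ[K] E, σ (AdjoinRoot.mk P y) =
      ((P.aroots E).map (fun x => (y.map (algebraMap K E)).eval x)).prod := by
    classical
    have h3 : ((P.aroots E).map (fun x => (y.map (algebraMap K E)).eval x)).prod =
        ∏ x ∈ (P.aroots E).toFinset, (y.map (algebraMap K E)).eval x := by
      rw [Finset.prod, Multiset.toFinset_val, hnd.dedup]
    rw [h3]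
    apply Finset.prod_bij (fun (σ : AdjoinRoot P →ₐ[K] E) _ => σ (AdjoinRoot.root P))
    · intro σ _
      rw [Multiset.mem_toFinset, mem_aroots]
      refine ⟨hP0, ?_⟩
      rw [aeval_algHom_apply, AdjoinRoot.aeval_eq, AdjoinRoot.mk_self, map_zero]
    · intro σ _ τ _ h
      exact AdjoinRoot.algHom_ext h
    · intro x hx
      rw [Multiset.mem_toFinset, mem_aroots] at hx
      refine ⟨AdjoinRoot.liftAlgHom P (Algebra.ofId K E) x ?_, Finset.mem_univ _, ?_⟩
      · exact hx.2
      · exact AdjoinRoot.liftAlgHom_root P (Algebra.ofId K E) x _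
    · intro σ _
      rw [eval_map_algebraMap, aeval_algHom_apply, AdjoinRoot.aeval_eq]
  rw [h2]
  exact h1

lemma irr_case {K : Type} [Field K] [Fintype K] [DecidableEq K] (hc : ringChar K ≠ 2)
    (P : K[X]) (hP : P.Monic) (hI : Irreducible P) : ∃ y : K[X], jac P y = -1 := by
  have : Fact (Irreducible P) := ⟨hI⟩
  have : FiniteDimensional K (AdjoinRoot P) := (AdjoinRoot.powerBasis hP.ne_zero).finite
  have : Finite (AdjoinRoot P) := Module.finite_of_finite K
  obtain ⟨c, hcs⟩ := FiniteField.exists_nonsquare hc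
  obtain ⟨z, hz⟩ := FiniteField.norm_surjective K (AdjoinRoot P) c
  obtain ⟨y, rfl⟩ := AdjoinRoot.mk_surjective z
  refine ⟨y, ?_⟩
  unfold jac
  rw [res_norm P hP y, hz]
  exact (quadraticChar_neg_one_iff_not_isSquare).mpr hcs

theorem main : S_J → S_NT := by
  intro hJ K _ _ _ hc ρ hρ hsq hdeg t ht
  obtain ⟨j1, j2, j3, j4, j5, j6, j7⟩ := hJ K
  have hone : ∀ f : K[X], f.Monic → jac f 1 = 1 := by
    intro f hf
    have h := j4 f 1 hf
    rw [map_one, map_one, one_pow] at h
    exact h
  rcases ht with rfl | rfl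
  · exact ⟨1, hone ρ hρ⟩
  · obtain ⟨P, hPm, hPi, τ, hτ⟩ := exists_monic_irreducible_factor ρ (by
      intro hu
      have := natDegree_eq_zero_of_isUnit hu
      omega)
    have hτm : τ.Monic := hPm.of_mul_monic_left (hτ ▸ hρ)
    have hcop : IsCoprime P τ := by
      rcases (dvd_or_isCoprime P τ hPi).symm with h | h
      · exact h
      · exfalso
        apply hPi.not_isUnit
        apply hsq P
        rw [hτ]
        exact mul_dvd_mul_left P h
    obtain ⟨y, hy⟩ := irr_case hc P hPm hPi
    obtain ⟨u, v, huv⟩ := hcop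
    refine ⟨y * (v * τ) + u * P, ?_⟩
    rw [hτ, j2 P τ _ hPm hτm]
    have e1 : jac P (y * (v * τ) + u * P) = jac P y := by
      apply j3 _ _ _ hPm
      refine ⟨u - y * u, ?_⟩
      linear_combination y * huv
    have e2 : jac τ (y * (v * τ) + u * P) = jac τ 1 := by
      apply j3 _ _ _ hτm
      refine ⟨y * v - v, ?_⟩
      linear_combination huv
    rw [e1, e2, hy, hone τ hτm]
    norm_num

end Pool.Agent.W327.FL.NT
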